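import Pool.Agent.T9h44.NK.Defs

/-! Project NK: faces of a polytope (helper73). -/

set_option autoImplicit false

open Set Filter Topology
open scoped RealInnerProductSpace

namespace Pool.Agent.T9h73.NK

open Pool.Agent.T9h98.DC Pool.Agent.T9h44.NK

/-- an exposed face of a hull of finitely many points is the hull of the points in it -/
theorem face_hull {d : ℕ} {P : Set (E d)} {s : Set (E d)} (hs : s.Finite)
    (hP : P = convexHull ℝ s) {F : Set (E d)} (hF : IsFace P F) :
    F = convexHull ℝ (s ∩ F) := by
  obtain ⟨hne, hex⟩ := hF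
  have hcomp : IsCompact P := by
    rw [hP]; exact hs.isCompact_convexHull (𝕜 := ℝ)
  have hconv : Convex ℝ P := by rw [hP]; exact convex_convexHull ℝ _
  have hFc : IsCompact F := hex.isCompact hcomp
  have hFv : Convex ℝ F := hex.convex hconv
  have h1 := closure_convexHull_extremePoints hFc hFv
  have h2 : F.extremePoints ℝ ⊆ s ∩ F := by
    intro x hx
    have h3 : x ∈ P.extremePoints ℝ := hex.isExtreme.extremePoints_subset_extremePoints hx
    rw [hP] at h3
    exact ⟨extremePoints_convexHull_subset h3, extremePoints_subset hx⟩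
  apply subset_antisymm
  · conv_lhs => rw [← h1]
    exact closure_minimal (convexHull_mono h2)
      ((hs.subset inter_subset_left).isClosed_convexHull (𝕜 := ℝ))
  · exact convexHull_min inter_subset_right hFv

theorem face_fp {d : ℕ} {P F : Set (E d)} (hP : FP P) (hF : IsFace P F) : FP F := by
  classical
  obtain ⟨s, hs⟩ := hP
  refine ⟨s.filter (· ∈ F), ?_⟩
  have := face_hull s.finite_toSet hs hF
  conv_lhs => rw [this]
  congr 1
  ext x
  simp

theorem face_sub {d : ℕ} {P F : Set (E d)} (hF : IsFace P F) : F ⊆ P := hF.2.subset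

theorem face_face {d : ℕ} {P F : Set (E d)} (hP : FP P) (hF : IsFace P F) (G : Set (E d)) :
    IsFace F G ↔ (IsFace P G ∧ G ⊆ F) := by
  classical
  obtain ⟨s, hs⟩ := hP
  obtain ⟨a, ha⟩ := hF.2 hF.1
  have hPc : Convex ℝ P := by rw [hs]; exact convex_convexHull ℝ _
  constructor
  · intro hG
    refine ⟨⟨hG.1, fun _ => ?_⟩, hG.2.subset⟩
    obtain ⟨b, hb⟩ := hG.2 hG.1
    obtain ⟨g, hg⟩ := hG.1
    have hgF : g ∈ F := hG.2.subset hg
    have hgP : g ∈ P := hF.2.subset hgF
    have hag : ∀ y ∈ P, a y ≤ a g := by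
      rw [ha] at hgF; exact hgF.2
    have hbg : ∀ y ∈ F, b y ≤ b g := by
      rw [hb] at hg; exact hg.2
    -- the small parameter
    have hev : ∀ᶠ ε : ℝ in 𝓝[>] 0, ∀ p ∈ s, p ∉ F → a p + ε * (b p - b g) < a g := by
      rw [Filter.eventually_all_finset]
      intro p hp
      by_cases hpF : p ∈ F
      · exact Eventually.of_forall fun ε h => absurd hpF h
      · have hpP : p ∈ P := by rw [hs]; exact subset_convexHull ℝ _ hp
        have hlt : a p < a g := by
          by_contra hcon
          push Not at hcon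
          apply hpF
          rw [ha]
          exact ⟨hpP, fun y hy => (hag y hy).trans hcon⟩
        have hc : Tendsto (fun ε : ℝ => a p + ε * (b p - b g)) (𝓝[>] 0) (𝓝 (a p + 0 * (b p - b g))) := by
          apply Tendsto.mono_left _ nhdsWithin_le_nhds
          exact (Continuous.tendsto (by fun_prop) 0)
        rw [zero_mul, add_zero] at hc
        filter_upwards [hc.eventually (gt_mem_nhds hlt)] with ε h _ using h
    obtain ⟨ε, hε, hε0⟩ := (hev.and self_mem_nhdsWithin).exists
    have hε0 : (0 : ℝ) < ε := hε0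
    refine ⟨a + ε • b, ?_⟩
    have hval : ∀ x, (a + ε • b) x = a x + ε * b x := fun x => by simp
    have hmaxs : ∀ p ∈ s, a p + ε * b p ≤ a g + ε * b g := by
      intro p hp
      by_cases hpF : p ∈ F
      · have h1 := hag p (hF.2.subset hpF)
        have h2 := mul_le_mul_of_nonneg_left (hbg p hpF) hε0.le
        linarith
      · have := hε p hp hpF
        nlinarith
    have hmax : ∀ x ∈ P, a x + ε * b x ≤ a g + ε * b g := by
      have h3 : P ⊆ {x | (a + ε • b) x ≤ a g + ε * b g} := by
        rw [hs]
        refine convexHull_min ?_ (convex_halfSpace_le (a + ε • b).isBoundedLinearMap.toIsLinearMap _)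
        intro p hp
        show (a + ε • b) p ≤ _
        rw [hval]
        exact hmaxs p hp
      intro x hx
      have := h3 hx
      rw [Set.mem_ofPred_eq, hval] at this
      exact this
    set H : Set (E d) := {x ∈ P | ∀ y ∈ P, (a + ε • b) y ≤ (a + ε • b) x} with hH
    have hGH : G ⊆ H := by
      intro x hx
      have hxF : x ∈ F := hG.2.subset hx
      refine ⟨hF.2.subset hxF, fun y hy => ?_⟩
      rw [hval, hval]
      refine (hmax y hy).trans ?_
      have h1 : a g ≤ a x := by
        rw [ha] at hxF; exact hxF.2 g hgP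
      have h2 : b g ≤ b x := by
        rw [hb] at hx; exact hx.2 g hgF
      have h3 := mul_le_mul_of_nonneg_left h2 hε0.le
      linarith
    have hHF : IsFace P H := ⟨⟨g, hGH hg⟩, fun _ => ⟨a + ε • b, hH⟩⟩
    have hHh := face_hull s.finite_toSet hs hHF
    have hFc : Convex ℝ F := hF.2.convex hPc
    have hGc : Convex ℝ G := hG.2.convex hFc
    apply subset_antisymm hGH
    rw [hHh]
    refine convexHull_min ?_ hGc
    rintro p ⟨hps, hpH⟩
    have hpm : a g + ε * b g ≤ a p + ε * b p := by
      have := hpH.2 g hgP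
      rwa [hval, hval] at this
    have hpF : p ∈ F := by
      by_contra hpF
      have := hε p hps hpF
      nlinarith
    rw [hb]
    refine ⟨hpF, fun y hy => ?_⟩
    have h1 := hag p hpH.1
    have h2 : b g ≤ b p := by
      by_contra h
      push Not at h
      have := mul_lt_mul_of_pos_left h hε0
      linarith
    exact (hbg y hy).trans h2
  · rintro ⟨hG, hGF⟩
    refine ⟨hG.1, fun _ => ?_⟩
    obtain ⟨c, hc⟩ := hG.2 hG.1
    obtain ⟨g, hg⟩ := hG.1
    refine ⟨c, ?_⟩
    apply subset_antisymm
    · intro x hx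
      refine ⟨hGF hx, fun y hy => ?_⟩
      rw [hc] at hx
      exact hx.2 y (hF.2.subset hy)
    · rintro x ⟨hxF, hx⟩
      rw [hc]
      refine ⟨hF.2.subset hxF, fun y hy => ?_⟩
      rw [hc] at hg
      exact (hg.2 y hy).trans (hx g (hGF (by rw [hc]; exact hg)))

end Pool.Agent.T9h73.NK
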