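import Pool.Agent.T9h73.NK.FF

/-! Project NK: vertices, dimensions of faces (helper73). -/

set_option autoImplicit false

open Set Filter Topology
open scoped RealInnerProductSpace

namespace Pool.Agent.T9h73.NK

open Pool.Agent.T9h98.DC Pool.Agent.T9h44.NK

theorem vx_iff {d : ℕ} {P : Set (E d)} (hP : FP P) (v : E d) : Vx P v ↔ v ∈ P.extremePoints ℝ := by
  classical
  constructor
  · intro h
    exact isExtreme_singleton.1 h.2.isExtreme
  · intro h
    obtain ⟨s, hs⟩ := hP
    have hPc : Convex ℝ P := by rw [hs]; exact convex_convexHull ℝ _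
    have hvs : v ∈ s := by
      have := h
      rw [hs] at this
      exact_mod_cast extremePoints_convexHull_subset this
    have h2 := hPc.mem_extremePoints_iff_mem_sdiff_convexHull_sdiff.1 h
    set K : Set (E d) := convexHull ℝ ((s : Set (E d)) \ {v}) with hK
    have hvK : v ∉ K := by
      intro hv
      apply h2.2
      apply convexHull_mono _ hv
      intro x hx
      exact ⟨by rw [hs]; exact subset_convexHull ℝ _ hx.1, hx.2⟩
    have hKcl : IsClosed K := (s.finite_toSet.subset sdiff_subset).isClosed_convexHull (𝕜 := ℝ)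
    obtain ⟨l, u, h3, h4⟩ := geometric_hahn_banach_closed_point (convex_convexHull ℝ _) hKcl hvK
    have hPe : P = convexHull ℝ (insert v ((s : Set (E d)) \ {v})) := by
      rw [insert_sdiff_singleton, insert_eq_of_mem (by exact_mod_cast hvs), hs]
    refine ⟨⟨v, rfl⟩, fun _ => ⟨l, ?_⟩⟩
    have hkey : ∀ x ∈ P, x ≠ v → l x < l v := by
      intro x hx hxv
      rcases ((s : Set (E d)) \ {v}).eq_empty_or_nonempty with h5 | h5
      · rw [hPe, h5] at hx
        simp at hx
        exact absurd hx hxv
      · rw [hPe, convexHull_insert h5, mem_convexJoin] at hx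
        obtain ⟨a, ha, y, hy, hx⟩ := hx
        rw [mem_singleton_iff] at ha
        subst ha
        obtain ⟨α, β, hα, hβ, hαβ, rfl⟩ := hx
        have h6 : l y < l a := (h3 y hy).trans h4
        have hβ0 : 0 < β := by
          rcases hβ.lt_or_eq with h | h
          · exact h
          · exfalso; apply hxv
            have hα1 : α = 1 := by linarith
            rw [← h, hα1]; simp
        rw [map_add, map_smul, map_smul, smul_eq_mul, smul_eq_mul]
        have : α = 1 - β := by linarith
        rw [this]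
        nlinarith
    apply subset_antisymm
    · rintro x rfl
      refine ⟨h2.1, fun y hy => ?_⟩
      by_cases hyx : y = x
      · rw [hyx]
      · exact (hkey y hy hyx).le
    · rintro x ⟨hx, hx2⟩
      by_contra hxv
      exact absurd (hx2 v h2.1) (not_le.2 (hkey x hx hxv))

theorem vx_mem {d : ℕ} {P : Set (E d)} {v : E d} (h : Vx P v) : v ∈ P := h.2.subset rfl

theorem vx_finite {d : ℕ} {P : Set (E d)} (hP : FP P) : {v | Vx P v}.Finite := by
  have hP' := hP
  obtain ⟨s, hs⟩ := hP
  refine s.finite_toSet.subset fun v hv => ?_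
  have := (vx_iff hP' v).1 hv
  rw [hs] at this
  exact extremePoints_convexHull_subset this

theorem hull_vx {d : ℕ} {P : Set (E d)} (hP : FP P) : P = convexHull ℝ {v | Vx P v} := by
  have hfin := vx_finite hP
  have hP' := hP
  obtain ⟨s, hs⟩ := hP
  have hcomp : IsCompact P := by
    rw [hs]; exact s.finite_toSet.isCompact_convexHull (𝕜 := ℝ)
  have hconv : Convex ℝ P := by rw [hs]; exact convex_convexHull ℝ _
  have h1 := closure_convexHull_extremePoints hcomp hconv
  have h2 : P.extremePoints ℝ = {v | Vx P v} := by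
    ext v; exact (vx_iff hP' v).symm
  rw [h2] at h1
  conv_lhs => rw [← h1]
  exact (hfin.isClosed_convexHull (𝕜 := ℝ)).closure_eq

theorem face_hull_vx {d : ℕ} {P F : Set (E d)} (hP : FP P) (hF : IsFace P F) :
    F = convexHull ℝ {v | Vx P v ∧ v ∈ F} :=
  face_hull (vx_finite hP) (hull_vx hP) hF

theorem top_face {d : ℕ} {P : Set (E d)} (hP : FP P) (hne : P.Nonempty) :
    IsFace P P ∧ ∃ v, Vx P v := by
  refine ⟨⟨hne, fun _ => ⟨0, by ext x; simp⟩⟩, ?_⟩
  obtain ⟨x, hx⟩ := hne
  rw [hull_vx hP] at hx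
  by_contra hcon
  push Not at hcon
  have : {v | Vx P v} = ∅ := by
    ext v; simp [hcon v]
  rw [this] at hx
  simp at hx

theorem dim_lt {d : ℕ} {P F G : Set (E d)} (hP : FP P) (hF : IsFace P F) (hG : IsFace P G)
    (h : F ⊆ G) (hne : F ≠ G) : dm F < dm G := by
  have h1 : IsFace G F := (face_face hP hG F).2 ⟨hF, h⟩
  obtain ⟨l, hl⟩ := h1.2 h1.1
  obtain ⟨f, hf⟩ := h1.1
  obtain ⟨g, hg, hgF⟩ : ∃ g ∈ G, g ∉ F := by
    by_contra hcon
    push Not at hcon
    exact hne (subset_antisymm h hcon)
  have hlt : l g < l f := by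
    by_contra hcon
    push Not at hcon
    apply hgF
    rw [hl]
    refine ⟨hg, fun y hy => ?_⟩
    rw [hl] at hf
    exact (hf.2 y hy).trans hcon
  apply Submodule.finrank_lt_finrank_of_lt
  refine lt_of_le_of_ne (vectorSpan_mono ℝ h) fun heq => ?_
  have h2 : vectorSpan ℝ F ≤ LinearMap.ker (l : E d →ₗ[ℝ] ℝ) := by
    rw [vectorSpan, Submodule.span_le]
    rintro _ ⟨x, hx, y, hy, rfl⟩
    rw [hl] at hx hy
    simp only [SetLike.mem_coe, LinearMap.mem_ker, vsub_eq_sub, map_sub]
    have := le_antisymm (hx.2 y hy.1) (hy.2 x hx.1)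
    simp only [ContinuousLinearMap.coe_coe]
    linarith
  have h3 : g -ᵥ f ∈ vectorSpan ℝ F := by
    rw [heq]
    exact vsub_mem_vectorSpan ℝ hg (h hf)
  have h4 := h2 h3
  simp only [LinearMap.mem_ker, vsub_eq_sub, map_sub, ContinuousLinearMap.coe_coe] at h4
  linarith

end Pool.Agent.T9h73.NK
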