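import Pool.Agent.T9h98.NK.SpecS

/-! Project NK: walking around a 2-face with equal edges and angles (helper73). -/

set_option autoImplicit false

open Set
open scoped RealInnerProductSpace

namespace Pool.Agent.T9h73.NK

open Pool.Agent.T9h98.DC Pool.Agent.T9h44.NK Pool.Agent.T9h98.NK

theorem cor_symm {d : ℕ} {P : Set (E d)} {v w y : E d} (h : Cor P v w y) : Cor P v y w := by
  obtain ⟨h1, h2, h3, T, h4, h5, h6, h7, h8⟩ := h
  exact ⟨h2, h1, h3.symm, T, h4, h5, h6, h8, h7⟩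

theorem adj_mem {d : ℕ} {P : Set (E d)} {v w : E d} (h : Adj P v w) : v ∈ P ∧ w ∈ P :=
  ⟨h.2.2.subset (left_mem_segment ℝ v w), h.2.2.subset (right_mem_segment ℝ v w)⟩

theorem walk (hrel : S_REL) (hplane : S_PLANE) : S_WALK := by
  intro D P g e hP hg hU ⟨v, w, y, hc⟩
  have hg1 : -1 < g := by linarith
  have hr := hrel D P g e hg1 hP hU
  obtain ⟨hc1, hκ⟩ := hr v w y hc
  by_cases h0 : 1 - 2 * g = 0
  · left; linarith
  right
  have hκ' : 0 < 1 - 2 * g := lt_of_le_of_ne hκ (Ne.symm h0)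
  obtain ⟨_, hpl⟩ := hplane D P hP v w y hc
  obtain ⟨hc2, _⟩ := hr _ _ _ (cor_symm hc1)
  obtain ⟨hc3, _⟩ := hr _ _ _ (cor_symm hc2)
  set z := y + (1 - 2 * g) • (w - v) with hz
  set v3 := v + (1 - 2 * g) • (z - w) with hv3
  set v4 := w + (1 - 2 * g) • (v3 - z) with hv4
  have hm3 : v3 ∈ P := (adj_mem hc2.2.1).2
  have hm4 : v4 ∈ P := (adj_mem hc3.2.1).2
  have e3 : v3 - v = ((1 - 2 * g) * (-2 * g)) • (w - v) + (1 - 2 * g) • (y - v) := by
    rw [hv3, hz]; module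
  have e4 : v4 - v = (2 * g * (1 + 2 * g - 4 * g ^ 2)) • (w - v) +
      ((1 - 2 * g) * (-2 * g)) • (y - v) := by
    rw [hv4, hv3, hz]; module
  have h3 := (hpl v3 hm3 _ _ e3).1
  have h4 := (hpl v4 hm4 _ _ e4).1
  have hg0 : g ≤ 0 := by
    by_contra hcon
    push Not at hcon
    nlinarith [mul_pos hκ' hcon]
  have hpos : 0 < 1 + 2 * g - 4 * g ^ 2 := by nlinarith
  by_contra hne
  have hlt : g < 0 := lt_of_le_of_ne hg0 hne
  nlinarith [mul_pos (neg_pos.2 hlt) hpos]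

end Pool.Agent.T9h73.NK
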